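import Pool.Agent.Lib.MP_4d8c35_co.Poly.Lin

/-! Branch vertices in the difference of two maximum independent sets, and the covering step. -/

namespace Pool.Agent.Lib.MP_4d8c35_co.Poly

open Finset Module

variable {V : Type*} {F : Type*} [Field F] [Fintype V] [DecidableEq V]
  {G : SimpleGraph V} {M : V → V → F}

def Ind (G : SimpleGraph V) (J : Finset V) : Prop := ∀ x ∈ J, ∀ y ∈ J, ¬ G.Adj x y

/-- `J` has `a + 1` elements and `x y` is its only edge. -/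
structure Cr (G : SimpleGraph V) (a : ℕ) (J : Finset V) (x y : V) : Prop where
  card : J.card = a + 1
  left : x ∈ J
  right : y ∈ J
  adj : G.Adj x y
  only : ∀ u ∈ J, ∀ v ∈ J, G.Adj u v → (u = x ∧ v = y) ∨ (u = y ∧ v = x)

theorem Cr.symm {a : ℕ} {J : Finset V} {x y : V} (h : Cr G a J x y) : Cr G a J y x :=
  ⟨h.card, h.right, h.left, h.adj.symm, fun u hu v hv huv => (h.only u hu v hv huv).symm⟩

theorem Cr.nb {a : ℕ} {J : Finset V} {x y r : V} (h : Cr G a J x y) (hr : r ∈ J)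
    (hx : G.Adj r x) : r = y := by
  rcases h.only r hr x h.left hx with ⟨h1, _⟩ | ⟨h1, _⟩
  · exact absurd h1 hx.ne
  · exact h1

theorem Cr.mem {a : ℕ} {J : Finset V} {x y u v : V} (h : Cr G a J x y) (hu : u ∈ J) (hv : v ∈ J)
    (hux : u ≠ x) (hvx : v ≠ x) : ¬ G.Adj u v := by
  intro huv
  rcases h.only u hu v hv huv with ⟨h1, _⟩ | ⟨_, h1⟩
  · exact hux h1
  · exact hvx h1

/-- Solvability off a critical set, with support in `P`, for the rows in `Q`. -/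
def Solv (G : SimpleGraph V) (M : V → V → F) (a : ℕ) (P Q : Finset V) : Prop :=
  ∀ J x y, Cr G a J x y → x ∈ P → ∀ c : V → F, ∃ z : V → F,
    (∀ v, z v ≠ 0 → v ∈ J ∧ v ∈ P ∧ v ≠ x) ∧ ∀ r ∈ Q, op M z r = if r ∈ J then 0 else c r

theorem Solv.one {a : ℕ} {P Q J : Finset V} {x y : V} (hM : Gen G M) (h : Solv G M a P Q)
    (hJ : Cr G a J x y) (hx : x ∈ P) :
    ∃ z : V → F, z x = 1 ∧ (∀ v, z v ≠ 0 → v ∈ J ∧ v ∈ P) ∧
      ∀ r ∈ Q, op M z r = if r = y then M y x else 0 := by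
  obtain ⟨z, h1, h2⟩ := h J x y hJ hx fun r => - M r x
  have hzx : z x = 0 := by
    by_contra h0
    exact (h1 x h0).2.2 rfl
  refine ⟨Pi.single x 1 + z, by simp [hzx], ?_, ?_⟩
  · intro v hv
    by_cases hvx : v = x
    · subst hvx; exact ⟨hJ.left, hx⟩
    · have : z v ≠ 0 := by simpa [hvx] using hv
      exact ⟨(h1 v this).1, (h1 v this).2.1⟩
  · intro r hr
    rw [op_add, op_single, h2 r hr]
    by_cases hry : r = y
    · subst hry; simp [hJ.right]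
    · by_cases hrJ : r ∈ J
      · simp [hrJ, hry, hM.zero r x fun h' => hry (hJ.nb hrJ h')]
      · simp [hrJ, hry]

theorem Solv.two {a : ℕ} {P Q J J' : Finset V} {x y y' : V} (hM : Gen G M) (h : Solv G M a P Q)
    (hJ : Cr G a J x y) (hJ' : Cr G a J' x y') (hy : y ≠ y') (hx : x ∈ P) :
    ∃ k ∈ Ker M P Q, k x = 1 ∧ ∀ v, v ∉ J → v ∉ J' → k v = 0 := by
  obtain ⟨z, h1, h2, h3⟩ := h.one hM hJ hx
  obtain ⟨w, h4, h5⟩ := h J' x y' hJ' hx fun r => if r = y then M y x else 0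
  have hwx : w x = 0 := by
    by_contra h0
    exact (h4 x h0).2.2 rfl
  have hz : ∀ v, ¬ (v ∈ J ∧ v ∈ P) → z v = 0 := fun v hv => by
    by_contra h0; exact hv (h2 v h0)
  have hw : ∀ v, ¬ (v ∈ J' ∧ v ∈ P) → w v = 0 := fun v hv => by
    by_contra h0; exact hv ⟨(h4 v h0).1, (h4 v h0).2.1⟩
  refine ⟨z - w, ⟨fun v hv => ?_, fun r hr => ?_⟩, by simp [h1, hwx], fun v hv hv' => ?_⟩
  · simp [hz v fun h' => hv h'.2, hw v fun h' => hv h'.2]
  · rw [op_sub, h3 r hr, h5 r hr]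
    by_cases hry : r = y
    · subst hry
      have : r ∉ J' := fun h' => hy (hJ'.nb h' hJ.adj.symm)
      simp [this]
    · simp [hry]
  · simp [hz v fun h' => hv h'.1, hw v fun h' => hv' h'.1]

/-- `x` has three different neighbours. -/
def Br (G : SimpleGraph V) (x : V) : Prop :=
  ∃ r s t, G.Adj x r ∧ G.Adj x s ∧ G.Adj x t ∧ r ≠ s ∧ r ≠ t ∧ s ≠ t

theorem Solv.quad {a : ℕ} {P Q J1 J2 J3 : Finset V} {x r s t : V} (hM : Gen G M)
    (h : Solv G M a P Q) (c1 : Cr G a J1 x r) (c2 : Cr G a J2 x s) (c3 : Cr G a J3 x t)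
    (hrs : r ≠ s) (hrt : r ≠ t) (hst : s ≠ t) (hx : x ∈ P) {L : Submodule F (V → F)}
    (hL : ∀ k ∈ Ker M P Q, ∀ l ∈ Ker M P Q, k * l ∈ L) :
    ∃ k ∈ L, k x = 1 ∧ ∀ v, (v ∉ J1 ∧ v ∉ J2) ∨ (v ∉ J1 ∧ v ∉ J3) ∨ (v ∉ J2 ∧ v ∉ J3) →
      k v = 0 := by
  let f1 : V → F := fun v => if v = r then M v x else 0
  let f2 : V → F := fun v => if v = s then M v x else 0
  let f3 : V → F := fun v => M v x - f1 v - f2 v
  have key : ∀ {J : Finset V} {y : V} (f : V → F), Cr G a J x y → (∀ v, ¬ G.Adj v x → f v = 0) →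
      f y = 0 → ∃ z : V → F, z x = 0 ∧ (∀ v, v ∉ J → z v = 0) ∧ (∀ v, v ∉ P → z v = 0) ∧
        ∀ v ∈ Q, op M z v = f v := by
    intro J y f c h1 h2
    obtain ⟨z, h3, h4⟩ := h J x y c hx f
    refine ⟨z, by_contra fun h0 => (h3 x h0).2.2 rfl, fun v hv => by_contra fun h0 => hv (h3 v h0).1,
      fun v hv => by_contra fun h0 => hv (h3 v h0).2.1, fun v hv => ?_⟩
    rw [h4 v hv]
    split_ifs with h5
    · by_cases h6 : G.Adj v x
      · rw [c.nb h5 h6, h2]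
      · exact (h1 v h6).symm
    · rfl
  have g1 : ∀ v, ¬ G.Adj v x → f1 v = 0 := fun v hv => by simp [f1, hM.zero v x hv]
  have g2 : ∀ v, ¬ G.Adj v x → f2 v = 0 := fun v hv => by simp [f2, hM.zero v x hv]
  have g3 : ∀ v, ¬ G.Adj v x → f3 v = 0 := fun v hv => by
    simp [f3, hM.zero v x hv, g1 v hv, g2 v hv]
  obtain ⟨a21, x21, j21, p21, o21⟩ := key f1 c2 g1 (by simp [f1, hrs.symm])
  obtain ⟨a31, x31, j31, p31, o31⟩ := key f1 c3 g1 (by simp [f1, hrt.symm])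
  obtain ⟨a12, x12, j12, p12, o12⟩ := key f2 c1 g2 (by simp [f2, hrs])
  obtain ⟨a32, x32, j32, p32, o32⟩ := key f2 c3 g2 (by simp [f2, hst.symm])
  obtain ⟨a13, x13, j13, p13, o13⟩ := key f3 c1 g3 (by simp [f1, f2, f3, hrs])
  obtain ⟨a23, x23, j23, p23, o23⟩ := key f3 c2 g3 (by simp [f1, f2, f3, hrs.symm])
  have hk : Pi.single x 1 - a21 - a32 - a13 ∈ Ker M P Q := by
    refine ⟨fun v hv => ?_, fun v hv => ?_⟩
    · have : v ≠ x := fun h0 => hv (h0 ▸ hx)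
      simp [this, p21 v hv, p32 v hv, p13 v hv]
    · rw [op_sub, op_sub, op_sub, op_single, o21 v hv, o32 v hv, o13 v hv]
      simp [f3]
  have d1 : a21 - a31 ∈ Ker M P Q := ⟨fun v hv => by simp [p21 v hv, p31 v hv],
    fun v hv => by rw [op_sub, o21 v hv, o31 v hv, sub_self]⟩
  have d2 : a32 - a12 ∈ Ker M P Q := ⟨fun v hv => by simp [p32 v hv, p12 v hv],
    fun v hv => by rw [op_sub, o32 v hv, o12 v hv, sub_self]⟩
  have d3 : a13 - a23 ∈ Ker M P Q := ⟨fun v hv => by simp [p13 v hv, p23 v hv],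
    fun v hv => by rw [op_sub, o13 v hv, o23 v hv, sub_self]⟩
  refine ⟨_, add_mem (add_mem (add_mem
    (hL _ hk _ (add_mem (add_mem (add_mem hk d1) d2) d3)) (hL _ d1 _ d2)) (hL _ d2 _ d3))
    (hL _ d3 _ d1), by simp [x21, x31, x12, x32, x13, x23], ?_⟩
  rintro v (⟨h1, h2⟩ | ⟨h1, h2⟩ | ⟨h1, h2⟩)
  · have : v ≠ x := fun h0 => h1 (h0 ▸ c1.left)
    simp only [Pi.add_apply, Pi.mul_apply, Pi.sub_apply, Pi.single_eq_of_ne this, j12 v h1,
      j13 v h1, j21 v h2, j23 v h2]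
    ring
  · have : v ≠ x := fun h0 => h1 (h0 ▸ c1.left)
    simp only [Pi.add_apply, Pi.mul_apply, Pi.sub_apply, Pi.single_eq_of_ne this, j12 v h1,
      j13 v h1, j31 v h2, j32 v h2]
    ring
  · have : v ≠ x := fun h0 => h1 (h0 ▸ c2.left)
    simp only [Pi.add_apply, Pi.mul_apply, Pi.sub_apply, Pi.single_eq_of_ne this, j21 v h1,
      j23 v h1, j31 v h2, j32 v h2]
    ring

theorem branch {a : ℕ} {P Q P' Q' : Finset V} (hM : Gen G M)
    (hcr : ∀ x y, G.Adj x y → ∃ J, Cr G a J x y) (h : Solv G M a P Q) (h' : Solv G M a P' Q')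
    (I : Finset V) (hI : ∀ x ∈ I, Br G x ∧ x ∈ P' ∧ x ∉ P ∧ ∀ r, G.Adj x r → r ∈ P) :
    I.card ≤ (finrank F (Ker M P Q)).choose 2 * (finrank F (Ker M P' Q') + 1).choose 2 := by
  obtain ⟨L, hL, hL'⟩ := ex_sym (Ker M P' Q')
  have key : ∀ x, ∃ (r s : V) (p q k : V → F), x ∈ I → G.Adj x r ∧ G.Adj x s ∧
      p ∈ Ker M P Q ∧ q ∈ Ker M P Q ∧ k ∈ L ∧ (p r * q s - p s * q r) * k x ≠ 0 ∧
      ∀ u ∈ I, x ≠ u → ∀ r' s', G.Adj u r' → G.Adj u s' →
        (p r' * q s' - p s' * q r') * k u = 0 := by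
    intro x
    by_cases hx : x ∈ I
    swap
    · exact ⟨x, x, 0, 0, 0, fun h0 => absurd h0 hx⟩
    obtain ⟨⟨r, s, t, hr, hs, ht, hrs, hrt, hst⟩, hxP', -, hN⟩ := hI x hx
    obtain ⟨J1, c1⟩ := hcr x r hr
    obtain ⟨J2, c2⟩ := hcr x s hs
    obtain ⟨J3, c3⟩ := hcr x t ht
    obtain ⟨e1, a1, b1, d1⟩ := h.one hM c1.symm (hN r hr)
    obtain ⟨e2, a2, b2, d2⟩ := h.one hM c2.symm (hN s hs)
    obtain ⟨e3, a3, b3, d3⟩ := h.one hM c3.symm (hN t ht)
    obtain ⟨k, hk, k1, k2⟩ := h'.quad hM c1 c2 c3 hrs hrt hst hxP' hL'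
    have z0 : ∀ {e : V → F} {J : Finset V} {y v : V}, Cr G a J x y →
        (∀ v, e v ≠ 0 → v ∈ J ∧ v ∈ P) → G.Adj x v → v ≠ y → e v = 0 := by
      intro e J y v c b hv hvy
      by_contra h0
      exact hvy (c.nb (b v h0).1 hv.symm)
    have z1 : ∀ {e : V → F} {J : Finset V} {y u v : V}, Cr G a J x y →
        (∀ v, e v ≠ 0 → v ∈ J ∧ v ∈ P) → u ∈ I → x ≠ u → u ∈ J → G.Adj u v → e v = 0 := by
      intro e J y u v c b hu hxu huJ huv
      by_contra h0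
      rcases c.only u huJ v (b v h0).1 huv with ⟨h1, _⟩ | ⟨h1, _⟩
      · exact hxu h1.symm
      · exact (hI u hu).2.2.1 (h1 ▸ hN y c.adj)
    have z2 : ∀ {e : V → F} {J : Finset V} {v : V}, (∀ v, e v ≠ 0 → v ∈ J ∧ v ∈ P) → v ∉ P →
        e v = 0 := by
      intro e J v b hv
      by_contra h0
      exact hv (b v h0).2
    refine ⟨r, s, M x t • e1 - M x r • e3, M x t • e2 - M x s • e3, k, fun _ =>
      ⟨hr, hs, ⟨fun v hv => ?_, fun v hv => ?_⟩, ⟨fun v hv => ?_, fun v hv => ?_⟩, hk, ?_, ?_⟩⟩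
    · simp [z2 b1 hv, z2 b3 hv]
    · rw [op_sub, op_smul, op_smul, d1 v hv, d3 v hv]
      split_ifs <;> ring
    · simp [z2 b2 hv, z2 b3 hv]
    · rw [op_sub, op_smul, op_smul, d2 v hv, d3 v hv]
      split_ifs <;> ring
    · simp [a1, a2, k1, z0 c1 b1 hs hrs.symm, z0 c2 b2 hr hrs, z0 c3 b3 hr hrt,
        z0 c3 b3 hs hst, hM.ne x t ht]
    · intro u hu hxu r' s' hr' hs'
      by_cases u1 : u ∈ J1 <;> by_cases u2 : u ∈ J2 <;> by_cases u3 : u ∈ J3
      · simp [z1 c1 b1 hu hxu u1 hr', z1 c1 b1 hu hxu u1 hs', z1 c3 b3 hu hxu u3 hr',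
          z1 c3 b3 hu hxu u3 hs']
      · simp only [Pi.sub_apply, Pi.smul_apply, smul_eq_mul, z1 c1 b1 hu hxu u1 hr',
          z1 c1 b1 hu hxu u1 hs', z1 c2 b2 hu hxu u2 hr', z1 c2 b2 hu hxu u2 hs']
        ring
      · simp [z1 c1 b1 hu hxu u1 hr', z1 c1 b1 hu hxu u1 hs', z1 c3 b3 hu hxu u3 hr',
          z1 c3 b3 hu hxu u3 hs']
      · simp [k2 u (Or.inr (Or.inr ⟨u2, u3⟩))]
      · simp [z1 c2 b2 hu hxu u2 hr', z1 c2 b2 hu hxu u2 hs', z1 c3 b3 hu hxu u3 hr',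
          z1 c3 b3 hu hxu u3 hs']
      · simp [k2 u (Or.inr (Or.inl ⟨u1, u3⟩))]
      · simp [k2 u (Or.inl ⟨u1, u2⟩)]
      · simp [k2 u (Or.inl ⟨u1, u2⟩)]
  choose r s p q k H using key
  exact (count4 I _ L r s p q k (fun i hi => (H i hi).2.2.1) (fun i hi => (H i hi).2.2.2.1)
    (fun i hi => (H i hi).2.2.2.2.1) (fun i hi => (H i hi).2.2.2.2.2.1)
    (fun i hi j hj hij => (H i hi).2.2.2.2.2.2 j hj hij _ _ (H j hj).1 (H j hj).2.1)).trans
    (Nat.mul_le_mul_left _ hL)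

variable {S : Finset V}

theorem hall_ind (hS : Ind G S) (hmax : ∀ J, Ind G J → J.card ≤ S.card) {B N : Finset V}
    (hB : Ind G B) (hd : Disjoint B S) (hN : ∀ r ∈ S, ∀ b ∈ B, G.Adj r b → r ∈ N) :
    B.card ≤ N.card := by
  have h1 : Ind G (B ∪ S \ N) := by
    intro x hx y hy hxy
    rcases mem_union.1 hx with hx | hx <;> rcases mem_union.1 hy with hy | hy
    · exact hB x hx y hy hxy
    · exact (mem_sdiff.1 hy).2 (hN y (mem_sdiff.1 hy).1 x hx hxy.symm)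
    · exact (mem_sdiff.1 hx).2 (hN x (mem_sdiff.1 hx).1 y hy hxy)
    · exact hS x (mem_sdiff.1 hx).1 y (mem_sdiff.1 hy).1 hxy
  have h2 := hmax _ h1
  rw [card_union_of_disjoint (hd.mono_right sdiff_subset)] at h2
  have h3 := le_card_sdiff N S
  omega

theorem card_cr {J : Finset V} {x y : V} (hJ : Cr G S.card J x y) :
    (J \ S).card = (S \ J).card + 1 := by
  have h1 := card_sdiff_add_card_inter J S
  have h2 := card_sdiff_add_card_inter S J
  have h3 := hJ.card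
  rw [inter_comm] at h2
  omega

theorem solv_out (hM : Gen G M) (hS : Ind G S) (hmax : ∀ J, Ind G J → J.card ≤ S.card) :
    Solv G M S.card Sᶜ S := by
  intro J x y hJ hx c
  have hx' : x ∉ S := mem_compl.1 hx
  have hY : ∀ v, v ∈ (J \ S).erase x ↔ v ≠ x ∧ v ∈ J ∧ v ∉ S := by simp
  have hd : Disjoint ((J \ S).erase x) (S \ J) :=
    disjoint_left.2 fun v hv hv' => ((hY v).1 hv).2.2 (mem_sdiff.1 hv').1
  have hh : Hall G ((J \ S).erase x) (S \ J) := by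
    intro B hB N hN
    refine hall_ind hS hmax (fun u hu v hv => hJ.mem ((hY u).1 (hB hu)).2.1 ((hY v).1 (hB hv)).2.1
      ((hY u).1 (hB hu)).1 ((hY v).1 (hB hv)).1)
      (disjoint_left.2 fun v hv => ((hY v).1 (hB hv)).2.2) fun r hr b hb hrb => ?_
    refine hN r (mem_sdiff.2 ⟨hr, fun hrJ => ?_⟩) b hb hrb
    exact hJ.mem hrJ ((hY b).1 (hB hb)).2.1 (fun h => hx' (h ▸ hr)) ((hY b).1 (hB hb)).1 hrb
  obtain ⟨z, h1, h2⟩ := hM.span hd hh (by
    rw [card_erase_of_mem (mem_sdiff.2 ⟨hJ.left, hx'⟩), card_cr hJ]; simp) c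
  have h3 : ∀ v, z v ≠ 0 → v ∈ J ∧ v ∈ Sᶜ ∧ v ≠ x := fun v hv => by
    have := (hY v).1 (by_contra fun h0 => hv (h1 v h0))
    exact ⟨this.2.1, mem_compl.2 this.2.2, this.1⟩
  refine ⟨z, h3, fun r hr => ?_⟩
  split_ifs with hrJ
  · refine hM.op_zero fun v hv => by_contra fun h0 => ?_
    exact hJ.mem hrJ (h3 v h0).1 (fun h => hx' (h ▸ hr)) (h3 v h0).2.2 hv
  · exact h2 r (mem_sdiff.2 ⟨hr, hrJ⟩)

theorem hall_out (hS : Ind G S) (hmax : ∀ J, Ind G J → J.card ≤ S.card)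
    (hav : ∀ v, ∃ I, Ind G I ∧ I.card = S.card ∧ v ∉ I) : Hall G S Sᶜ := by
  classical
  have key : ∀ B : Finset V, B ⊆ S → B.card ≤ (univ.filter fun r => ∃ b ∈ B, G.Adj r b).card := by
    intro B
    induction B using Finset.strongInduction with
    | H B ih =>
      intro hB
      rcases B.eq_empty_or_nonempty with rfl | ⟨v, hv⟩
      · simp
      obtain ⟨I, hI, hc, hvI⟩ := hav v
      have h1 := ih (B ∩ I) (Finset.ssubset_iff_subset_ne.2 ⟨inter_subset_left, fun h =>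
        hvI (mem_inter.1 (show v ∈ B ∩ I by rw [h]; exact hv)).2⟩) (inter_subset_left.trans hB)
      set N := univ.filter fun r => ∃ b ∈ B, G.Adj r b with hN
      set N' := univ.filter fun r => ∃ b ∈ B ∩ I, G.Adj r b with hN'
      have h2 : (B \ I).card ≤ (I ∩ N).card :=
        hall_ind (S := I) hI (fun J hJ => hc ▸ hmax J hJ)
          (fun u hu w hw => hS u (hB (mem_sdiff.1 hu).1) w (hB (mem_sdiff.1 hw).1))
          sdiff_disjoint fun r hr b hb hrb =>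
            mem_inter.2 ⟨hr, mem_filter.2 ⟨mem_univ _, b, (mem_sdiff.1 hb).1, hrb⟩⟩
      have h3 : N' ⊆ N \ I := by
        intro r hr
        obtain ⟨b, hb, hrb⟩ := (mem_filter.1 hr).2
        exact mem_sdiff.2 ⟨mem_filter.2 ⟨mem_univ _, b, (mem_inter.1 hb).1, hrb⟩,
          fun hrI => hI r hrI b (mem_inter.1 hb).2 hrb⟩
      have h4 := card_le_card h3
      have h5 := card_sdiff_add_card_inter N I
      have h6 := card_sdiff_add_card_inter B I
      rw [inter_comm] at h5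
      omega
  intro B hB N hN
  refine (key B hB).trans (card_le_card fun r hr => ?_)
  obtain ⟨b, hb, hrb⟩ := (mem_filter.1 hr).2
  exact hN r (mem_compl.2 fun hrS => hS r hrS b (hB hb) hrb) b hb hrb

theorem Cr.erase {a : ℕ} {J : Finset V} {x y : V} (h : Cr G a J x y) :
    Ind G (J.erase x) ∧ (J.erase x).card = a :=
  ⟨fun _ hu _ hv => h.mem (mem_of_mem_erase hu) (mem_of_mem_erase hv) (ne_of_mem_erase hu)
    (ne_of_mem_erase hv), by rw [card_erase_of_mem h.left, h.card]; rfl⟩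

/-- Branch vertices outside and inside a maximum independent set. -/
theorem counts (hM : Gen G M) (hS : Ind G S) (hmax : ∀ J, Ind G J → J.card ≤ S.card)
    (hcr : ∀ x y, G.Adj x y → ∃ J, Cr G S.card J x y)
    (hav : ∀ v, ∃ I, Ind G I ∧ I.card = S.card ∧ v ∉ I) :
    ∃ d : ℕ, Fintype.card V = 2 * S.card + d ∧ ∀ B : Finset V, (∀ x ∈ B, Br G x) →
      (B \ S).card ≤ d * (2 * (d.choose 2 * (d + 1).choose 2) + 1) ∧
      (B ∩ S).card ≤ d * (2 * (d.choose 2 * (d + 1).choose 2)) := by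
  classical
  have rk : ∀ S', Ind G S' → S'.card = S.card →
      finrank F (Ker M S'ᶜ S') + 2 * S.card = Fintype.card V := by
    intro S' h1 h2
    have r1 := hM.ker_rank disjoint_compl_right (hall_out h1 (h2 ▸ hmax) (h2 ▸ hav))
    have r3 := card_add_card_compl S'
    omega
  have so : ∀ S', Ind G S' → S'.card = S.card → Solv G M S.card S'ᶜ S' := fun S' h1 h2 =>
    h2 ▸ solv_out hM h1 (h2 ▸ hmax)
  set d := finrank F (Ker M Sᶜ S) with hd
  have r0 := rk S hS rfl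
  refine ⟨d, by omega, fun B hB => ?_⟩
  have hD : ∀ S1 S2, Ind G S1 → S1.card = S.card → Ind G S2 → S2.card = S.card →
      (B ∩ (S1 \ S2)).card ≤ d.choose 2 * (d + 1).choose 2 := by
    intro S1 S2 h1 h2 h3 h4
    have := branch hM hcr (so S1 h1 h2) (so S2 h3 h4) (B ∩ (S1 \ S2)) fun x hx => by
      obtain ⟨h5, h6⟩ := mem_inter.1 hx
      obtain ⟨h6, h7⟩ := mem_sdiff.1 h6
      exact ⟨hB x h5, mem_compl.2 h7, fun h => mem_compl.1 h h6,
        fun r hr => mem_compl.2 fun h => h1 x h6 r h hr⟩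
    have e1 : finrank F (Ker M S1ᶜ S1) = d := by have := rk S1 h1 h2; omega
    have e2 : finrank F (Ker M S2ᶜ S2) = d := by have := rk S2 h3 h4; omega
    rwa [e1, e2] at this
  let I : Finset V := univ.filter fun t => t ∉ S ∧ ∃ y y', G.Adj t y ∧ G.Adj t y' ∧ y ≠ y'
  have key : ∀ t, ∃ (y y' : V) (J J' : Finset V) (k : V → F), t ∈ I → y ≠ y' ∧
      Cr G S.card J t y ∧ Cr G S.card J' t y' ∧ k ∈ Ker M Sᶜ S ∧ k t ≠ 0 ∧
      ∀ v, k v ≠ 0 → v ∈ J ∨ v ∈ J' := by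
    intro t
    by_cases ht : t ∈ I
    swap
    · exact ⟨t, t, ∅, ∅, 0, fun h0 => absurd h0 ht⟩
    obtain ⟨h1, y, y', h2, h3, h4⟩ := (mem_filter.1 ht).2
    obtain ⟨J, c⟩ := hcr t y h2
    obtain ⟨J', c'⟩ := hcr t y' h3
    obtain ⟨k, k1, k2, k3⟩ := (so S hS rfl).two hM c c' h4 (mem_compl.2 h1)
    exact ⟨y, y', J, J', k, fun _ => ⟨h4, c, c', k1, by simp [k2], fun v hv => by_contra fun h0 =>
      hv (k3 v (fun h => h0 (Or.inl h)) fun h => h0 (Or.inr h))⟩⟩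
  choose y y' J J' k H using key
  obtain ⟨I', i1, i2, i3⟩ := cover I _ k (fun i hi => (H i hi).2.2.2.1)
    fun i hi => (H i hi).2.2.2.2.1
  constructor
  · have h1 : B \ S ⊆ I'.biUnion fun j =>
        insert j (B ∩ ((J j).erase j \ S) ∪ B ∩ ((J' j).erase j \ S)) := by
      intro t ht
      obtain ⟨h2, h3⟩ := mem_sdiff.1 ht
      obtain ⟨r, s, _, hr, hs, _, hrs, _⟩ := hB t h2
      obtain ⟨j, hj, h4⟩ := i3 t (mem_filter.2 ⟨mem_univ _, h3, r, s, hr, hs, hrs⟩)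
      refine mem_biUnion.2 ⟨j, hj, ?_⟩
      by_cases h5 : t = j
      · simp [h5]
      rcases (H j (i1 hj)).2.2.2.2.2 t h4 with h6 | h6 <;> simp [h2, h3, h5, h6]
    refine (card_le_card h1).trans ((card_biUnion_le_card_mul _ _ _ fun j hj => ?_).trans
      (Nat.mul_le_mul_right _ i2))
    obtain ⟨-, c, c', -⟩ := H j (i1 hj)
    have h2 := hD _ S c.erase.1 c.erase.2 hS rfl
    have h3 := hD _ S c'.erase.1 c'.erase.2 hS rfl
    exact (card_insert_le _ _).trans (Nat.succ_le_succ ((card_union_le _ _).trans (by omega)))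
  · have h1 : B ∩ S ⊆ I'.biUnion fun j =>
        B ∩ (S \ (J j).erase j) ∪ B ∩ (S \ (J' j).erase j) := by
      intro s hs
      obtain ⟨h2, h3⟩ := mem_inter.1 hs
      obtain ⟨t, r, _, ht, hr, _, htr, _⟩ := hB s h2
      have h4 : ∃ u, G.Adj t u ∧ s ≠ u := by
        by_contra h0
        push Not at h0
        obtain ⟨K, c⟩ := hcr s r hr
        have h5 : t ∉ K.erase s := fun h => htr (c.nb (mem_of_mem_erase h) ht.symm)
        have h6 := hmax (insert t (K.erase s)) fun u hu v hv huv => by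
          rcases mem_insert.1 hu with rfl | hu' <;> rcases mem_insert.1 hv with rfl | hv'
          · exact huv.ne rfl
          · exact ne_of_mem_erase hv' (h0 v huv).symm
          · exact ne_of_mem_erase hu' (h0 u huv.symm).symm
          · exact c.erase.1 u hu' v hv' huv
        rw [card_insert_of_notMem h5, c.erase.2] at h6
        omega
      obtain ⟨u, hu, hsu⟩ := h4
      obtain ⟨j, hj, h5⟩ := i3 t (mem_filter.2 ⟨mem_univ _, fun h => hS s h3 t h ht, s, u,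
        ht.symm, hu, hsu⟩)
      refine mem_biUnion.2 ⟨j, hj, ?_⟩
      obtain ⟨hy, c, c', -, -, h6⟩ := H j (i1 hj)
      have hsj : s ≠ j := fun h => (mem_filter.1 (i1 hj)).2.1 (h ▸ h3)
      have h7 : s ∉ J j ∨ s ∉ J' j := by
        by_contra h0
        push Not at h0
        have h8 : t = j := by_contra fun h8 => by
          rcases h6 t h5 with h9 | h9
          · exact c.mem h0.1 h9 hsj h8 ht
          · exact c'.mem h0.2 h9 hsj h8 ht
        exact hy ((c.nb h0.1 (h8 ▸ ht)).symm.trans (c'.nb h0.2 (h8 ▸ ht)))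
      rcases h7 with h7 | h7 <;> simp [h2, h3, h7]
    refine (card_le_card h1).trans ((card_biUnion_le_card_mul _ _ _ fun j hj => ?_).trans
      (Nat.mul_le_mul_right _ i2))
    obtain ⟨-, c, c', -⟩ := H j (i1 hj)
    have h2 := hD S _ hS rfl c.erase.1 c.erase.2
    have h3 := hD S _ hS rfl c'.erase.1 c'.erase.2
    exact (card_union_le _ _).trans (by omega)

end Pool.Agent.Lib.MP_4d8c35_co.Poly
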