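import Mathlib

/-! Linear algebra for the polynomial bound on critical graphs: generic symmetric weights,
solvability along matchings, dimension counts. -/

namespace Pool.Agent.Lib.MP_4d8c35_co.Poly

open Finset Module

variable {V : Type*} {F : Type*} [Field F]

/-- Symmetric weights supported on the edges, with all matched minors non-zero. -/
structure Gen (G : SimpleGraph V) (M : V → V → F) : Prop where
  symm : ∀ u v, M u v = M v u
  zero : ∀ u v, ¬ G.Adj u v → M u v = 0
  ne : ∀ u v, G.Adj u v → M u v ≠ 0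
  det : ∀ [DecidableEq V] (Y : Finset V) (f : V → V), Set.InjOn f Y → (∀ y ∈ Y, G.Adj (f y) y) →
    (∀ y ∈ Y, f y ∉ Y) → (Matrix.of fun a b : Y => M (f a) b).det ≠ 0

open Classical in
theorem ex_gen (G : SimpleGraph V) :
    ∃ M : V → V → FractionRing (MvPolynomial (Sym2 V) ℚ), Gen G M := by
  have hinj := IsFractionRing.injective (MvPolynomial (Sym2 V) ℚ)
    (FractionRing (MvPolynomial (Sym2 V) ℚ))
  let P : V → V → MvPolynomial (Sym2 V) ℚ := fun u v =>
    if G.Adj u v then MvPolynomial.X s(u, v) else 0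
  refine ⟨fun u v => algebraMap _ _ (P u v), ?_, ?_, ?_, ?_⟩
  · intro u v
    simp only [P, G.adj_comm u v, Sym2.eq_swap (a := u)]
  · intro u v h
    simp [P, h]
  · intro u v h h0
    have : P u v = 0 := hinj (by simpa using h0)
    simp [P, h] at this
  · intro _ Y f hf hadj hdis h0
    let N : Matrix Y Y (MvPolynomial (Sym2 V) ℚ) := Matrix.of fun a b : Y => P (f a) b
    have h1 : algebraMap _ (FractionRing (MvPolynomial (Sym2 V) ℚ)) N.det = 0 := by
      rw [RingHom.map_det]; exact h0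
    have h2 : N.det = 0 := hinj (by simpa using h1)
    let φ : Sym2 V → ℚ := fun e => if ∃ c ∈ Y, e = s(f c, c) then 1 else 0
    have h3 : (MvPolynomial.eval φ).mapMatrix N = 1 := by
      ext a b
      by_cases hab : a = b
      · subst hab
        have : ∃ c ∈ Y, s(f a, (a : V)) = s(f c, c) := ⟨a, a.2, rfl⟩
        simp only [N, P, RingHom.mapMatrix_apply, Matrix.map_apply, Matrix.of_apply, hadj a a.2,
          if_true, MvPolynomial.eval_X, φ, this, Matrix.one_apply_eq]
      · have : ¬ ∃ c ∈ Y, s(f a, (b : V)) = s(f c, c) := by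
          rintro ⟨c, hc, h⟩
          rcases Sym2.eq_iff.1 h with ⟨h4, h5⟩ | ⟨h4, _⟩
          · exact hab (Subtype.ext ((hf a.2 hc h4).trans h5.symm))
          · exact hdis a a.2 (h4 ▸ hc)
        by_cases h6 : G.Adj (f a) b
        · simp only [N, P, RingHom.mapMatrix_apply, Matrix.map_apply, Matrix.of_apply, h6, if_true,
            MvPolynomial.eval_X, φ, this, if_false, Matrix.one_apply_ne hab]
        · simp [N, P, h6, Matrix.one_apply_ne hab]
    have h4 := RingHom.map_det (MvPolynomial.eval φ) N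
    rw [h2, h3] at h4
    simp at h4

variable [Fintype V] [DecidableEq V] {G : SimpleGraph V} {M : V → V → F}

/-- Hall's condition from `Y` into `R`. -/
def Hall (G : SimpleGraph V) (Y R : Finset V) : Prop :=
  ∀ B ⊆ Y, ∀ N : Finset V, (∀ r ∈ R, ∀ b ∈ B, G.Adj r b → r ∈ N) → B.card ≤ N.card

omit [Fintype V] in
theorem Hall.ex {Y R : Finset V} (h : Hall G Y R) :
    ∃ f : V → V, Set.InjOn f Y ∧ ∀ y ∈ Y, f y ∈ R ∧ G.Adj (f y) y := by
  classical
  let t : Y → Finset V := fun y => R.filter fun r => G.Adj r y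
  have h1 : ∀ s : Finset Y, s.card ≤ (s.biUnion t).card := by
    intro s
    have := h (s.map (Function.Embedding.subtype _)) (by
      intro x hx
      obtain ⟨a, _, rfl⟩ := mem_map.1 hx
      exact a.2) (s.biUnion t) (by
      intro r hr b hb hrb
      obtain ⟨a, ha, rfl⟩ := mem_map.1 hb
      exact mem_biUnion.2 ⟨a, ha, mem_filter.2 ⟨hr, hrb⟩⟩)
    simpa using this
  obtain ⟨g, hg, hg'⟩ := (all_card_le_biUnion_card_iff_exists_injective t).1 h1
  refine ⟨fun v => if hv : v ∈ Y then g ⟨v, hv⟩ else v, ?_, ?_⟩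
  · intro a ha b hb hab
    have ha' : a ∈ Y := ha
    have hb' : b ∈ Y := hb
    simp only [ha', hb', dif_pos] at hab
    exact congrArg Subtype.val (hg hab)
  · intro y hy
    simp only [hy, dif_pos]
    exact mem_filter.1 (hg' ⟨y, hy⟩)

/-- The weighted adjacency operator. -/
def op (M : V → V → F) (k : V → F) (r : V) : F := ∑ v, M r v * k v

theorem op_add (k l : V → F) (r : V) : op M (k + l) r = op M k r + op M l r := by
  simp [op, mul_add, sum_add_distrib]

theorem op_sub (k l : V → F) (r : V) : op M (k - l) r = op M k r - op M l r := by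
  simp [op, mul_sub, sum_sub_distrib]

theorem op_smul (c : F) (k : V → F) (r : V) : op M (c • k) r = c * op M k r := by
  simp [op, mul_sum, mul_left_comm]

theorem op_single (x r : V) : op M (Pi.single x 1) r = M r x := by
  simp [op, Pi.single_apply]

theorem Gen.op_zero (hM : Gen G M) {k : V → F} {r : V} (h : ∀ v, G.Adj r v → k v = 0) :
    op M k r = 0 := by
  refine sum_eq_zero fun v _ => ?_
  by_cases hv : G.Adj r v
  · rw [h v hv, mul_zero]
  · rw [hM.zero r v hv, zero_mul]

/-- If `Y` is matchable into `R`, any values on `Y` are attained by a vector supported on `R`. -/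
theorem Gen.sur (hM : Gen G M) {Y R : Finset V} (hd : Disjoint Y R) (h : Hall G Y R) (c : V → F) :
    ∃ η : V → F, (∀ v, v ∉ R → η v = 0) ∧ ∀ y ∈ Y, op M η y = c y := by
  obtain ⟨f, hf, hf'⟩ := h.ex
  have hdet := hM.det Y f hf (fun y hy => (hf' y hy).2)
    (fun y hy h' => disjoint_left.1 hd h' (hf' y hy).1)
  set N : Matrix Y Y F := Matrix.of fun a b : Y => M (f a) b with hN
  have hu : IsUnit N.det := isUnit_iff_ne_zero.2 hdet
  let ξ : Y → F := Matrix.vecMul (fun y : Y => c y) N⁻¹
  have hξ : Matrix.vecMul ξ N = fun y : Y => c y := by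
    simp only [ξ, Matrix.vecMul_vecMul, Matrix.nonsing_inv_mul N hu, Matrix.vecMul_one]
  refine ⟨fun r => ∑ a : Y, if f a = r then ξ a else 0, ?_, ?_⟩
  · intro v hv
    refine sum_eq_zero fun a _ => if_neg ?_
    rintro rfl
    exact hv (hf' a a.2).1
  · intro y hy
    have := congrFun hξ ⟨y, hy⟩
    rw [← this]
    simp only [op, mul_sum, Matrix.vecMul, dotProduct, hN, Matrix.of_apply]
    rw [sum_comm]
    refine sum_congr rfl fun a _ => ?_
    simp [mul_comm, hM.symm y]

/-- If `Y` is matchable into `R` and `R` is not larger, any values on `R` are attained by a vector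
supported on `Y`. -/
theorem Gen.span (hM : Gen G M) {Y R : Finset V} (hd : Disjoint Y R) (h : Hall G Y R)
    (hc : R.card ≤ Y.card) (c : V → F) :
    ∃ z : V → F, (∀ v, v ∉ Y → z v = 0) ∧ ∀ r ∈ R, op M z r = c r := by
  obtain ⟨f, hf, hf'⟩ := h.ex
  have him : Y.image f = R := by
    refine eq_of_subset_of_card_le ?_ (by rwa [card_image_of_injOn hf])
    intro r hr
    obtain ⟨y, hy, rfl⟩ := mem_image.1 hr
    exact (hf' y hy).1
  refine hM.sur hd.symm ?_ c
  intro B hB N hN
  have h1 : B ⊆ (N.filter (· ∈ Y)).image f := by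
    intro b hb
    obtain ⟨y, hy, rfl⟩ := mem_image.1 (him ▸ hB hb)
    exact mem_image.2 ⟨y, mem_filter.2 ⟨hN y hy _ hb (hf' y hy).2.symm, hy⟩, rfl⟩
  exact (card_le_card h1).trans (card_image_le.trans (card_filter_le _ _))

/-- Vectors supported on `P` and killed by the rows in `Q`. -/
def Ker (M : V → V → F) (P Q : Finset V) : Submodule F (V → F) where
  carrier := {k | (∀ v, v ∉ P → k v = 0) ∧ ∀ q ∈ Q, op M k q = 0}
  add_mem' := by
    rintro a b ⟨ha, ha'⟩ ⟨hb, hb'⟩
    exact ⟨fun v hv => by simp [ha v hv, hb v hv], fun q hq => by simp [op_add, ha' q hq, hb' q hq]⟩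
  zero_mem' := ⟨fun _ _ => rfl, fun q _ => by simp [op]⟩
  smul_mem' := by
    rintro c a ⟨ha, ha'⟩
    exact ⟨fun v hv => by simp [ha v hv], fun q hq => by simp [op_smul, ha' q hq]⟩

theorem Gen.ker_rank (hM : Gen G M) {P Q : Finset V} (hd : Disjoint Q P) (h : Hall G Q P) :
    finrank F (Ker M P Q) + Q.card = P.card := by
  let φ : (V → F) →ₗ[F] (Q → F) × ((Pᶜ : Finset V) → F) :=
    { toFun := fun k => (fun q => op M k q, fun v => k v)
      map_add' := fun a b => by ext <;> simp [op_add]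
      map_smul' := fun c a => by ext <;> simp [op_smul] }
  have hk : LinearMap.ker φ = Ker M P Q := by
    ext k
    simp only [LinearMap.mem_ker, φ, LinearMap.coe_mk, AddHom.coe_mk, Prod.mk_eq_zero]
    constructor
    · rintro ⟨h1, h2⟩
      exact ⟨fun v hv => congrFun h2 ⟨v, mem_compl.2 hv⟩, fun q hq => congrFun h1 ⟨q, hq⟩⟩
    · rintro ⟨h1, h2⟩
      exact ⟨funext fun q => h2 q q.2, funext fun v => h1 v (mem_compl.1 v.2)⟩
  have hs : LinearMap.range φ = ⊤ := by
    rw [eq_top_iff]
    rintro ⟨c, d⟩ -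
    let k0 : V → F := fun v => if hv : v ∈ (Pᶜ : Finset V) then d ⟨v, hv⟩ else 0
    obtain ⟨η, h1, h2⟩ := hM.sur hd h fun q => (if hq : q ∈ Q then c ⟨q, hq⟩ else 0) - op M k0 q
    refine ⟨η + k0, Prod.ext ?_ ?_⟩
    · ext q
      simp [φ, op_add, h2 q q.2]
    · ext v
      simp [φ, k0, h1 v (mem_compl.1 v.2), mem_compl.1 v.2]
  have h3 := LinearMap.finrank_range_add_finrank_ker φ
  rw [hk, hs] at h3
  have h4 := card_add_card_compl P
  simp only [finrank_top, finrank_prod, finrank_fintype_fun_eq_card, Fintype.card_coe] at h3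
  omega

theorem ex_prod {A B : Type*} [Finite A] [Finite B] (L : Submodule F (A → F))
    (L' : Submodule F (B → F)) :
    ∃ P : Submodule F (A × B → F), finrank F P ≤ finrank F L * finrank F L' ∧
      ∀ a ∈ L, ∀ b ∈ L', (fun z : A × B => a z.1 * b z.2) ∈ P := by
  let bil : L →ₗ[F] L' →ₗ[F] (A × B → F) :=
    LinearMap.mk₂ F (fun a b => fun z => a.1 z.1 * b.1 z.2)
      (fun _ _ _ => by ext; simp [add_mul]) (fun _ _ _ => by ext; simp [mul_assoc])
      (fun _ _ _ => by ext; simp [mul_add]) (fun _ _ _ => by ext; simp [mul_left_comm])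
  refine ⟨LinearMap.range (TensorProduct.lift bil), ?_, ?_⟩
  · rw [← finrank_tensorProduct]
    exact LinearMap.finrank_range_le _
  · intro a ha b hb
    exact ⟨TensorProduct.tmul F ⟨a, ha⟩ ⟨b, hb⟩, by simp [bil]⟩

theorem card_le_rank {Z ι : Type*} [Finite Z] (I : Finset ι) (P : Submodule F (Z → F))
    (τ : ι → Z → F) (φ : ι → (Z → F) →ₗ[F] F) (hP : ∀ i ∈ I, τ i ∈ P)
    (hd : ∀ i ∈ I, φ i (τ i) ≠ 0) (ho : ∀ i ∈ I, ∀ j ∈ I, i ≠ j → φ j (τ i) = 0) :
    I.card ≤ finrank F P := by
  classical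
  have hli : LinearIndependent F fun i : I => (⟨τ i, hP i i.2⟩ : P) := by
    rw [Fintype.linearIndependent_iff]
    intro g hg j
    have h1 : ∑ i : I, g i • τ i = 0 := by
      have := congrArg Subtype.val hg
      simpa using this
    have h2 := congrArg (φ j) h1
    rw [map_sum, map_zero, sum_eq_single j] at h2
    · simpa [hd j j.2] using h2
    · intro i _ hij
      simp [ho i i.2 j j.2 fun h => hij (Subtype.ext h)]
    · simp
  simpa using hli.fintype_card_le_finrank

theorem bil_mem {A N ι : Type*} [AddCommGroup A] [Module F A] [AddCommGroup N] [Module F N]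
    (β : A →ₗ[F] A →ₗ[F] N) (f : ι → A) (P : Submodule F N) (h : ∀ i j, β (f i) (f j) ∈ P) :
    ∀ a ∈ Submodule.span F (Set.range f), ∀ b ∈ Submodule.span F (Set.range f), β a b ∈ P := by
  intro a ha b hb
  have := Submodule.apply_mem_map₂ β ha hb
  rw [Submodule.map₂_span_span] at this
  refine Submodule.span_le.2 ?_ this
  rintro _ ⟨_, ⟨i, rfl⟩, _, ⟨j, rfl⟩, rfl⟩
  exact h i j

theorem ex_fam {A : Type*} [Finite A] (L : Submodule F (A → F)) :
    ∃ f : Fin (finrank F L) → A → F, Submodule.span F (Set.range f) = L := by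
  refine ⟨L.subtype ∘ finBasis F L, ?_⟩
  rw [Set.range_comp, Submodule.span_image, Basis.span_eq, Submodule.map_subtype_top]

theorem ex_sym {A : Type*} [Finite A] (L : Submodule F (A → F)) :
    ∃ P : Submodule F (A → F), finrank F P ≤ (finrank F L + 1).choose 2 ∧
      ∀ a ∈ L, ∀ b ∈ L, a * b ∈ P := by
  obtain ⟨f, hf⟩ := ex_fam L
  let g : Sym2 (Fin (finrank F L)) → A → F :=
    Sym2.lift ⟨fun i j => f i * f j, fun _ _ => mul_comm _ _⟩
  refine ⟨Submodule.span F (Set.range g), ?_, ?_⟩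
  · have := finrank_range_le_card (R := F) g
    rwa [Sym2.card, Fintype.card_fin] at this
  · have := bil_mem (LinearMap.mul F (A → F)) f (Submodule.span F (Set.range g))
      fun i j => Submodule.subset_span ⟨s(i, j), rfl⟩
    rwa [hf] at this

theorem ex_alt {A : Type*} [Finite A] (L : Submodule F (A → F)) :
    ∃ P : Submodule F (A × A → F), finrank F P ≤ (finrank F L).choose 2 ∧
      ∀ a ∈ L, ∀ b ∈ L, (fun z : A × A => a z.1 * b z.2 - a z.2 * b z.1) ∈ P := by
  classical
  obtain ⟨f, hf⟩ := ex_fam L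
  let β : (A → F) →ₗ[F] (A → F) →ₗ[F] (A × A → F) :=
    LinearMap.mk₂ F (fun a b => fun z => a z.1 * b z.2 - a z.2 * b z.1)
      (fun _ _ _ => by ext; simp; ring) (fun _ _ _ => by ext; simp; ring)
      (fun _ _ _ => by ext; simp; ring) (fun _ _ _ => by ext; simp; ring)
  let E := ((univ : Finset (Fin (finrank F L))) ×ˢ univ).filter fun x => x.1 < x.2
  let g : E → A × A → F := fun e => β (f e.1.1) (f e.1.2)
  have hg : ∀ i j, i < j → β (f i) (f j) ∈ Submodule.span F (Set.range g) := fun i j h =>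
    Submodule.subset_span ⟨⟨(i, j), by simp [E, h]⟩, rfl⟩
  refine ⟨Submodule.span F (Set.range g), ?_, ?_⟩
  · have := finrank_range_le_card (R := F) g
    rwa [Fintype.card_coe, card_product_filter_lt, card_univ, Fintype.card_fin] at this
  · have := bil_mem β f (Submodule.span F (Set.range g)) fun i j => by
      rcases lt_trichotomy i j with h | rfl | h
      · exact hg i j h
      · have : β (f i) (f i) = 0 := by ext; simp [β, mul_comm]
        rw [this]; exact zero_mem _
      · have : β (f i) (f j) = -β (f j) (f i) := by ext; simp [β, mul_comm]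
        rw [this]; exact neg_mem (hg j i h)
    rwa [hf] at this

theorem count4 (I : Finset V) (L P : Submodule F (V → F)) (r s : V → V) (p q k : V → V → F)
    (hp : ∀ i ∈ I, p i ∈ L) (hq : ∀ i ∈ I, q i ∈ L) (hk : ∀ i ∈ I, k i ∈ P)
    (hd : ∀ i ∈ I, (p i (r i) * q i (s i) - p i (s i) * q i (r i)) * k i i ≠ 0)
    (ho : ∀ i ∈ I, ∀ j ∈ I, i ≠ j → (p i (r j) * q i (s j) - p i (s j) * q i (r j)) * k i j = 0) :
    I.card ≤ (finrank F L).choose 2 * finrank F P := by
  obtain ⟨P1, hP1, h1⟩ := ex_alt L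
  obtain ⟨P2, hP2, h2⟩ := ex_prod P1 P
  exact (card_le_rank I P2 (fun i z => (p i z.1.1 * q i z.1.2 - p i z.1.2 * q i z.1.1) * k i z.2)
    (fun j => LinearMap.proj ((r j, s j), j))
    (fun i hi => h2 _ (h1 _ (hp i hi) _ (hq i hi)) _ (hk i hi)) hd ho).trans
    (hP2.trans (Nat.mul_le_mul_right _ hP1))

theorem cover (I : Finset V) (L : Submodule F (V → F)) (k : V → V → F) (hk : ∀ i ∈ I, k i ∈ L)
    (hd : ∀ i ∈ I, k i i ≠ 0) :
    ∃ I' ⊆ I, I'.card ≤ finrank F L ∧ ∀ i ∈ I, ∃ j ∈ I', k j i ≠ 0 := by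
  classical
  obtain ⟨T, h1, h2, h3, -⟩ := Submodule.exists_finset_span_eq_linearIndepOn F (k '' (I : Set V))
  obtain ⟨I', h4, h5, h6⟩ := exists_subset_injOn_image_eq_of_surjOn (f := k) (I : Set V) T h1
  refine ⟨I', h4, ?_, fun i hi => ?_⟩
  · rw [← card_image_of_injOn h5, h6, h2]
    refine Submodule.finrank_mono (Submodule.span_le.2 ?_)
    rintro _ ⟨i, hi, rfl⟩
    exact hk i hi
  · by_contra h0
    push Not at h0
    have h7 : k i ∈ Submodule.span F (T : Set (V → F)) :=
      h3 ▸ Submodule.subset_span ⟨i, hi, rfl⟩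
    have h8 : Submodule.span F (T : Set (V → F)) ≤
        LinearMap.ker (LinearMap.proj (R := F) (φ := fun _ => F) i) := by
      refine Submodule.span_le.2 fun τ hτ => ?_
      obtain ⟨j, hj, rfl⟩ := mem_image.1 (h6 ▸ (mem_coe.1 hτ) : τ ∈ I'.image k)
      exact h0 j hj
    exact hd i hi (h8 h7)

end Pool.Agent.Lib.MP_4d8c35_co.Poly
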