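import Pool.Agent.Lib.MP_4d8c35_co.Poly.Core

/-! Polynomial bounds: branch vertices of critical graphs, order of stable graphs. -/

namespace Pool.Agent.Lib.MP_4d8c35_co.Poly

open Finset

theorem two_choose (n : ℕ) : 2 * (n + 1).choose 2 = (n + 1) * n := by
  induction n with
  | zero => rfl
  | succ n ih => rw [Nat.choose_succ_succ, Nat.choose_one_right, mul_add, ih]; ring

theorem ar5 (d : ℕ) : d * (4 * (d.choose 2 * (d + 1).choose 2) + 1) + d ^ 3 = d ^ 5 + d := by
  rcases d with _ | m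
  · rfl
  have h : 4 * ((m + 1).choose 2 * (m + 1 + 1).choose 2) = ((m + 1) * m) * ((m + 1 + 1) * (m + 1)) := by
    rw [← two_choose, ← two_choose]; ring
  rw [h]; ring

theorem ar6 (d : ℕ) : d * (4 * (d.choose 2 * (d + 1).choose 2) + 1) ≤ d ^ 5 := by
  have := ar5 d
  have := Nat.le_self_pow (show 3 ≠ 0 by norm_num) d
  omega

variable {V : Type*} [Fintype V] [DecidableEq V] {G : SimpleGraph V}

theorem ind_iff {J : Finset V} : G.IsIndepSet (J : Set V) ↔ Ind G J :=
  ⟨fun h _ hx _ hy hxy => h hx hy hxy.ne hxy, fun h _ hx _ hy _ => h _ hx _ hy⟩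

theorem cr_of {a : ℕ} {x y : V} (hmax : ∀ J, Ind G J → J.card ≤ a) {J : Finset V}
    (hJ : Ind (G.deleteEdges {s(x, y)}) J) (hc : a < J.card) (hxy : G.Adj x y) :
    ∃ J, Cr G a J x y := by
  obtain ⟨J', h1, h2⟩ := exists_subset_card_eq (s := J) (n := a + 1) hc
  have only : ∀ u ∈ J', ∀ v ∈ J', G.Adj u v → (u = x ∧ v = y) ∨ (u = y ∧ v = x) := by
    intro u hu v hv huv
    by_contra h0
    refine hJ u (h1 hu) v (h1 hv) ?_
    simpa [huv, Sym2.eq_iff] using h0
  have both : x ∈ J' ∧ y ∈ J' := by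
    by_contra h0
    have := hmax J' fun u hu v hv huv => by
      rcases only u hu v hv huv with ⟨rfl, rfl⟩ | ⟨rfl, rfl⟩
      · exact h0 ⟨hu, hv⟩
      · exact h0 ⟨hv, hu⟩
    omega
  exact ⟨J', h2, both.1, both.2, hxy, only⟩

theorem stable_core {a : ℕ} (hmax : ∀ J, Ind G J → J.card ≤ a)
    (hst : ∀ D : Finset V, D.card ≤ 3 → ∃ I, Ind G I ∧ I.card = a ∧ Disjoint I D) :
    ∃ d, Fintype.card V = 2 * a + d ∧ Fintype.card V ≤ d ^ 5 := by
  classical
  obtain ⟨H, hHG, hH⟩ := exists_minimal_le_of_wellFoundedLT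
    (fun H : SimpleGraph V => ∀ J, Ind H J → J.card ≤ a) G hmax
  have hI : ∀ {I}, Ind G I → Ind H I := fun h x hx y hy hxy => h x hx y hy (hHG hxy)
  obtain ⟨S, hS, rfl, -⟩ := hst ∅ (by simp)
  have hcr : ∀ x y, H.Adj x y → ∃ J, Cr H S.card J x y := by
    intro x y hxy
    have h1 : ¬ ∀ J, Ind (H.deleteEdges {s(x, y)}) J → J.card ≤ S.card := by
      intro h2
      have := hH.2 h2 (H.deleteEdges_le _) hxy
      simp at this
    push Not at h1
    obtain ⟨J, hJ, hc⟩ := h1
    exact cr_of hH.1 hJ hc hxy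
  have hbr : ∀ x, Br H x := by
    intro x
    by_cases h1 : 2 < (H.neighborFinset x).card
    · obtain ⟨r, s, t, hr, hs, ht, h2⟩ := two_lt_card_iff.1 h1
      exact ⟨r, s, t, by simpa using hr, by simpa using hs, by simpa using ht, h2⟩
    obtain ⟨I, h2, h3, h4⟩ := hst (insert x (H.neighborFinset x))
      ((card_insert_le _ _).trans (by omega))
    have h5 : x ∉ I := fun h => disjoint_left.1 h4 h (mem_insert_self _ _)
    have h6 : ∀ v ∈ I, ¬ H.Adj x v := fun v hv h =>
      disjoint_left.1 h4 hv (mem_insert_of_mem (by simpa using h))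
    have h7 := hH.1 (insert x I) fun u hu v hv huv => by
      rcases mem_insert.1 hu with rfl | hu' <;> rcases mem_insert.1 hv with rfl | hv'
      · exact huv.ne rfl
      · exact h6 v hv' huv
      · exact h6 u hu' huv.symm
      · exact hI h2 u hu' v hv' huv
    rw [card_insert_of_notMem h5] at h7
    omega
  obtain ⟨M, hM⟩ := ex_gen H
  obtain ⟨d, c1, c2⟩ := counts hM (hI hS) hH.1 hcr fun v => by
    obtain ⟨I, h2, h3, h4⟩ := hst {v} (by simp)
    exact ⟨I, hI h2, h3, by simpa using h4⟩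
  refine ⟨d, c1, ?_⟩
  have c3 := (c2 univ fun x _ => hbr x).1
  have c4 := card_sdiff_add_card_eq_card (subset_univ S)
  have c5 := ar6 d
  rw [card_univ] at c4
  nlinarith

theorem le_del {D I : Finset V} (hI : Ind G I) (hd : Disjoint I D) :
    I.card ≤ (G.induce (D : Set V)ᶜ).indepNum := by
  classical
  have h1 : Ind (G.induce (D : Set V)ᶜ) (I.subtype (· ∈ (D : Set V)ᶜ)) := fun x hx y hy hxy =>
    hI x (mem_subtype.1 hx) y (mem_subtype.1 hy) hxy
  have h2 := (ind_iff.2 h1).card_le_indepNum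
  rwa [card_subtype, filter_true_of_mem (p := (· ∈ (D : Set V)ᶜ))
    fun x hx => disjoint_left.1 hd hx] at h2

theorem ex_del (G : SimpleGraph V) (D : Finset V) :
    ∃ I, Ind G I ∧ I.card = (G.induce (D : Set V)ᶜ).indepNum ∧ Disjoint I D := by
  classical
  obtain ⟨s, h1, h2⟩ := (G.induce (D : Set V)ᶜ).exists_isNIndepSet_indepNum
  refine ⟨s.map (Function.Embedding.subtype _), ?_, by simpa using h2, ?_⟩
  · intro x hx y hy hxy
    obtain ⟨x', hx', rfl⟩ := mem_map.1 hx
    obtain ⟨y', hy', rfl⟩ := mem_map.1 hy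
    exact ind_iff.1 h1 x' hx' y' hy' hxy
  · refine disjoint_left.2 fun x hx => ?_
    obtain ⟨x, hx, rfl⟩ := mem_map.1 hx
    exact x.2

/-- Every `(k, l)`-stable graph with `n ≥ k ≥ 3 l + 3` has `n ≤ (n - 2 α + 2 l) ^ 5`. -/
theorem stable_bound (G : SimpleGraph V) (k l : ℕ) (hkl : 3 * l + 3 ≤ k)
    (hn : k ≤ Fintype.card V)
    (hst : ∀ D : Finset V, D.card = k → G.indepNum ≤ (G.induce (D : Set V)ᶜ).indepNum + l) :
    Fintype.card V ≤ (Fintype.card V + 2 * l - 2 * G.indepNum) ^ 5 := by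
  classical
  let a : Finset V → ℕ := fun D => (G.induce (D : Set V)ᶜ).indepNum
  have mono : ∀ D D', D ⊆ D' → a D' ≤ a D := by
    intro D D' h
    obtain ⟨I, h1, h2, h3⟩ := ex_del G D'
    exact h2.symm.trans_le (le_del h1 (h3.mono_right h))
  have low : ∀ D : Finset V, D.card ≤ k → G.indepNum ≤ a D + l := by
    intro D hD
    obtain ⟨D', h1, h2⟩ := exists_superset_card_eq hD hn
    exact (hst D' h2).trans (Nat.add_le_add_right (mono D D' h1) l)
  obtain ⟨D, hD, hD'⟩ := exists_max_image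
    (univ.filter fun D : Finset V => D.card ≤ k ∧ 3 * a D + D.card ≤ 3 * G.indepNum) card
    ⟨∅, mem_filter.2 ⟨mem_univ _, by simp, by
      obtain ⟨I, h1, h2, -⟩ := ex_del G ∅
      have := (ind_iff.2 h1).card_le_indepNum
      simp only [a, card_empty]
      omega⟩⟩
  obtain ⟨h1, h2⟩ := (mem_filter.1 hD).2
  have h3 := low D h1
  obtain ⟨d, c1, c2⟩ := stable_core (G := G.induce (D : Set V)ᶜ) (a := a D)
    (fun J hJ => (ind_iff.2 hJ).card_le_indepNum) (by
      intro E hE
      let D' := D ∪ E.map (Function.Embedding.subtype _)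
      have e1 : D'.card ≤ D.card + 3 := (card_union_le _ _).trans (by simpa using hE)
      have e2 : a D' = a D := by
        refine le_antisymm (mono _ _ subset_union_left) (not_lt.1 fun hlt => ?_)
        have e3 := hD' D' (mem_filter.2 ⟨mem_univ _, by omega, by omega⟩)
        have e4 : D = D' := eq_of_subset_of_card_le subset_union_left e3
        rw [← e4] at hlt
        exact lt_irrefl _ hlt
      obtain ⟨I, i1, i2, i3⟩ := ex_del G D'
      refine ⟨I.subtype (· ∈ (D : Set V)ᶜ), fun x hx y hy hxy =>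
        i1 x (mem_subtype.1 hx) y (mem_subtype.1 hy) hxy, ?_, disjoint_left.2 fun x hx hx' => ?_⟩
      · rw [card_subtype, filter_true_of_mem (p := (· ∈ (D : Set V)ᶜ)) fun x hx =>
          disjoint_left.1 (i3.mono_right subset_union_left) hx, i2]
        exact e2
      · exact disjoint_left.1 i3 (mem_subtype.1 hx) (mem_union_right _ (mem_map.2 ⟨x, hx', rfl⟩)))
  have c3 : Fintype.card ((D : Set V)ᶜ : Set V) + D.card = Fintype.card V := by
    rw [Fintype.card_compl_set]
    have := card_le_univ D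
    simp only [coe_sort_coe, Fintype.card_coe]
    omega
  have c4 : d + D.card ≤ Fintype.card V + 2 * l - 2 * G.indepNum := by omega
  have c5 : d ^ 5 + D.card ≤ (d + D.card) ^ 5 :=
    (Nat.add_le_add_left (Nat.le_self_pow (by norm_num) _) _).trans
      (pow_add_pow_le (Nat.zero_le _) (Nat.zero_le _) (by norm_num))
  have c6 := Nat.pow_le_pow_left c4 5
  omega

/-- A critical graph without isolated vertices has at most `(n - 2 α) ^ 5` vertices of degree at
least three. -/
theorem branch_bound (G : SimpleGraph V) [DecidableRel G.Adj]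
    (hcr : ∀ e ∈ G.edgeSet, G.indepNum < (G.deleteEdges {e}).indepNum)
    (hiso : ∀ v, ∃ u, G.Adj v u) :
    (univ.filter fun v => 3 ≤ G.degree v).card ≤ (Fintype.card V - 2 * G.indepNum) ^ 5 := by
  classical
  obtain ⟨S, hS, hc⟩ := G.exists_isNIndepSet_indepNum
  have hmax : ∀ J, Ind G J → J.card ≤ S.card := fun J hJ => hc ▸ (ind_iff.2 hJ).card_le_indepNum
  have h1 : ∀ x y, G.Adj x y → ∃ J, Cr G S.card J x y := by
    intro x y hxy
    obtain ⟨J, j1, j2⟩ := (G.deleteEdges {s(x, y)}).exists_isNIndepSet_indepNum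
    exact cr_of hmax (ind_iff.1 j1) (by rw [hc, j2]; exact hcr _ hxy) hxy
  obtain ⟨M, hM⟩ := ex_gen G
  obtain ⟨d, c1, c2⟩ := counts hM (ind_iff.1 hS) hmax h1 fun v => by
    obtain ⟨u, hu⟩ := hiso v
    obtain ⟨J, hJ⟩ := h1 v u hu
    exact ⟨J.erase v, hJ.erase.1, hJ.erase.2, notMem_erase _ _⟩
  set B := univ.filter fun v => 3 ≤ G.degree v with hB
  have hbr : ∀ x ∈ B, Br G x := by
    intro x hx
    obtain ⟨r, s, t, hr, hs, ht, h2⟩ := two_lt_card_iff.1
      (show 2 < (G.neighborFinset x).card from (mem_filter.1 hx).2)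
    exact ⟨r, s, t, by simpa using hr, by simpa using hs, by simpa using ht, h2⟩
  obtain ⟨b1, b2⟩ := c2 B hbr
  have b3 := card_sdiff_add_card_inter B S
  have b4 := ar6 d
  have b7 : Fintype.card V - 2 * G.indepNum = d := by omega
  rw [b7]
  nlinarith

end Pool.Agent.Lib.MP_4d8c35_co.Poly
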